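import Mathlib

namespace Pool.Agent.Q192.BD

open Topology

/-- `C` is a one-dimensional `C¹` submanifold of the plane `ℂ = ℝ²`: around each of its points
there is a `C¹` diffeomorphism between open subsets of the plane which straightens `C`. -/
def IsC1Submanifold (C : Set ℂ) : Prop :=
  ∀ p ∈ C, ∃ Φ : OpenPartialHomeomorph ℂ (ℝ × ℝ), p ∈ Φ.source ∧
    ContDiffOn ℝ 1 Φ Φ.source ∧ ContDiffOn ℝ 1 Φ.symm Φ.target ∧
    ∀ z ∈ Φ.source, z ∈ C ↔ (Φ z).2 = 0

/-- A `C¹` curve in the plane: a simple closed curve which is a one-dimensional `C¹`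
submanifold. -/
def IsC1Curve (C : Set ℂ) : Prop :=
  (∃ γ : Circle → ℂ, Continuous γ ∧ Function.Injective γ ∧ Set.range γ = C) ∧ IsC1Submanifold C

/-- The group `Homeo¹` of the plane (as a predicate on homeomorphisms): `f` and its inverse map
every `C¹` curve onto a `C¹` curve. -/
def InHomeo1 (f : ℂ ≃ₜ ℂ) : Prop :=
  (∀ C, IsC1Curve C → IsC1Curve (f '' C)) ∧ ∀ C, IsC1Curve C → IsC1Curve (f.symm '' C)

end Pool.Agent.Q192.BD
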