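import Mathlib
import Pool.Agent.Q192.BD.Defs

namespace Pool.Agent.Q192.BD

open Topology Filter Set

/-- strict differentiability at every point of an open set gives `C¹` -/
theorem contDiffOn_of_strict {h : ℝ → ℝ} {J : Set ℝ} (hJ : IsOpen J)
    (hs : ∀ x ∈ J, ∃ m, HasStrictDerivAt h m x) : ContDiffOn ℝ 1 h J := by
  rw [contDiffOn_one_iff_derivWithin hJ.uniqueDiffOn]
  have hd : ∀ x ∈ J, HasStrictDerivAt h (deriv h x) x := by
    intro x hx
    obtain ⟨m, hm⟩ := hs x hx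
    rwa [hm.hasDerivAt.deriv]
  refine ⟨fun x hx => (hd x hx).hasDerivAt.differentiableAt.differentiableWithinAt, ?_⟩
  have h1 : ContinuousOn (deriv h) J := by
    intro x hx
    apply ContinuousAt.continuousWithinAt
    rw [Metric.continuousAt_iff']
    intro ε hε
    have h2 := ((hd x hx).isLittleO).def (half_pos hε)
    rw [nhds_prod_eq] at h2
    obtain ⟨s, hs1, hs2⟩ := Filter.eventually_prod_self_iff'.1 h2
    have h3 : ∀ᶠ y in 𝓝 x, s ∈ 𝓝 y := eventually_mem_nhds_iff.2 hs1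
    filter_upwards [h3, hJ.mem_nhds hx] with y hy hyJ
    have h4 : HasDerivAt (fun z => h z - deriv h x * z) (deriv h y - deriv h x) y := by
      have := (hd y hyJ).hasDerivAt.fun_sub ((hasDerivAt_id y).const_mul (deriv h x))
      simpa using this
    have h5 : ‖deriv h y - deriv h x‖ ≤ ε / 2 := by
      apply h4.le_of_lip' (half_pos hε).le
      filter_upwards [hy] with z hz
      have h6 := hs2 z hz y (mem_of_mem_nhds hy)
      have e : h z - deriv h x * z - (h y - deriv h x * y) =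
          h z - h y - (ContinuousLinearMap.toSpanSingleton ℝ (deriv h x)) (z - y) := by
        simp
        ring
      rw [e]
      exact h6
    rw [dist_eq_norm]
    linarith
  refine h1.congr ?_
  intro x hx
  exact derivWithin_of_isOpen hJ hx

/-- projective strict differentiability of a plane curve -/
def PSD (Γ : ℝ → ℂ) (x₀ : ℝ) (v : ℂ) : Prop :=
  ∀ ε > 0, ∀ᶠ q in 𝓝 ((x₀, x₀) : ℝ × ℝ), ∃ σ > 0,
    ‖Γ q.1 - Γ q.2 - ((σ * (q.1 - q.2) : ℝ) : ℂ) * v‖ ≤ ε * σ * |q.1 - q.2|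

theorem graph_lemma {Γ : ℝ → ℂ} {x₀ : ℝ} {T : Set ℝ} (hT : IsOpen T) (hx₀ : x₀ ∈ T)
    (hΓ : ContinuousOn Γ T) {v : ℝ → ℂ} (hv : ∀ t ∈ T, v t ≠ 0) (hpsd : ∀ t ∈ T, PSD Γ t (v t)) :
    ∃ δ > 0, Ioo (x₀ - δ) (x₀ + δ) ⊆ T ∧ ∃ h : ℝ → ℝ,
      IsOpen ((fun t => (Γ t / v x₀).re) '' Ioo (x₀ - δ) (x₀ + δ)) ∧
      ContDiffOn ℝ 1 h ((fun t => (Γ t / v x₀).re) '' Ioo (x₀ - δ) (x₀ + δ)) ∧
      ∀ t ∈ Ioo (x₀ - δ) (x₀ + δ), (Γ t / v x₀).im = h ((Γ t / v x₀).re) := by
  set v₀ := v x₀ with hv₀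
  have hv₀n : v₀ ≠ 0 := hv x₀ hx₀
  -- rescaled curve
  have key : ∀ t ∈ T, ∀ ε > 0, ∀ᶠ q in 𝓝 ((t, t) : ℝ × ℝ), ∃ σ > 0,
      ‖Γ q.1 / v₀ - Γ q.2 / v₀ - ((σ * (q.1 - q.2) : ℝ) : ℂ) * (v t / v₀)‖ ≤
        ε * σ * |q.1 - q.2| := by
    intro t ht ε hε
    have h1 := hpsd t ht (ε * ‖v₀‖) (mul_pos hε (norm_pos_iff.2 hv₀n))
    filter_upwards [h1] with q hq
    obtain ⟨σ, hσ, hq⟩ := hq
    refine ⟨σ, hσ, ?_⟩
    have e : Γ q.1 / v₀ - Γ q.2 / v₀ - ((σ * (q.1 - q.2) : ℝ) : ℂ) * (v t / v₀) =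
        (Γ q.1 - Γ q.2 - ((σ * (q.1 - q.2) : ℝ) : ℂ) * v t) / v₀ := by
      field_simp
    rw [e, norm_div, div_le_iff₀ (norm_pos_iff.2 hv₀n)]
    calc _ ≤ ε * ‖v₀‖ * σ * |q.1 - q.2| := hq
      _ = _ := by ring
  obtain ⟨δ, hδ, hδT, hcone⟩ : ∃ δ > 0, Ioo (x₀ - δ) (x₀ + δ) ⊆ T ∧
      ∀ t ∈ Ioo (x₀ - δ) (x₀ + δ), ∀ s ∈ Ioo (x₀ - δ) (x₀ + δ), ∃ σ > 0,
      ‖Γ t / v₀ - Γ s / v₀ - ((σ * (t - s) : ℝ) : ℂ)‖ ≤ 1 / 2 * σ * |t - s| := by
    have h1 := key x₀ hx₀ (1 / 2) (by norm_num)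
    rw [nhds_prod_eq] at h1
    obtain ⟨s, hs1, hs2⟩ := Filter.eventually_prod_self_iff'.1 h1
    obtain ⟨δ, hδ, hb⟩ := Metric.mem_nhds_iff.1 (Filter.inter_mem hs1 (hT.mem_nhds hx₀))
    rw [Real.ball_eq_Ioo] at hb
    refine ⟨δ, hδ, fun t ht => (hb ht).2, fun t ht s hs => ?_⟩
    obtain ⟨σ, hσ, h2⟩ := hs2 t (hb ht).1 s (hb hs).1
    refine ⟨σ, hσ, ?_⟩
    rw [← hv₀, div_self hv₀n, mul_one] at h2
    exact h2
  refine ⟨δ, hδ, hδT, ?_⟩
  set x : ℝ → ℝ := fun t => (Γ t / v₀).re with hx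
  set y : ℝ → ℝ := fun t => (Γ t / v₀).im with hy
  set I := Ioo (x₀ - δ) (x₀ + δ) with hI
  -- `x` is strictly increasing on `I`
  have hcone' : ∀ t ∈ I, ∀ s ∈ I, ∃ σ > 0, |x t - x s - σ * (t - s)| ≤ 1 / 2 * σ * |t - s| ∧
      |y t - y s| ≤ 1 / 2 * σ * |t - s| := by
    intro t ht s hs
    obtain ⟨σ, hσ, h⟩ := hcone t ht s hs
    refine ⟨σ, hσ, ?_, ?_⟩
    · have := (Complex.abs_re_le_norm _).trans h
      simpa only [Complex.sub_re, Complex.ofReal_re] using this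
    · have := (Complex.abs_im_le_norm _).trans h
      simpa only [Complex.sub_im, Complex.ofReal_im, sub_zero] using this
  have hmono : StrictMonoOn x I := by
    intro s hs t ht hst
    obtain ⟨σ, hσ, h, -⟩ := hcone' t ht s hs
    have hts : 0 < t - s := sub_pos.2 hst
    rw [abs_of_pos hts] at h
    have h2 := (abs_le.1 h).1
    have h3 : 0 < σ * (t - s) := mul_pos hσ hts
    nlinarith
  have hxc : ContinuousOn x I := by
    have : ContinuousOn (fun t => Γ t / v₀) I := (hΓ.mono hδT).div_const v₀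
    exact Complex.continuous_re.comp_continuousOn this
  have hyc : ContinuousOn y I := by
    have : ContinuousOn (fun t => Γ t / v₀) I := (hΓ.mono hδT).div_const v₀
    exact Complex.continuous_im.comp_continuousOn this
  have hInh : x₀ ∈ I := ⟨by linarith, by linarith⟩
  -- the inverse of `x`
  set g : ℝ → ℝ := Function.invFunOn x I with hg
  have hgI : ∀ X ∈ x '' I, g X ∈ I ∧ x (g X) = X := by
    rintro _ ⟨t, ht, rfl⟩
    exact ⟨Function.invFunOn_mem ⟨t, ht, rfl⟩, Function.invFunOn_eq ⟨t, ht, rfl⟩⟩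
  have hgx : ∀ t ∈ I, g (x t) = t := by
    intro t ht
    exact hmono.injOn (hgI _ ⟨t, ht, rfl⟩).1 ht (hgI _ ⟨t, ht, rfl⟩).2
  -- images of neighbourhoods are neighbourhoods
  have himg : ∀ t ∈ I, ∀ a b, a < t → t < b → Icc a b ⊆ I → Ioo (x a) (x b) ⊆ x '' Ioo a b := by
    intro t ht a b hat htb hab
    exact intermediate_value_Ioo (hat.trans htb).le (hxc.mono hab)
  have hnb : ∀ t ∈ I, ∀ N ∈ 𝓝 t, ∃ M ∈ 𝓝 (x t), ∀ X ∈ M, X ∈ x '' I ∧ g X ∈ N := by
    intro t ht N hN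
    have hN' : N ∩ I ∈ 𝓝 t := Filter.inter_mem hN (isOpen_Ioo.mem_nhds ht)
    obtain ⟨η, hη, hb⟩ := Metric.mem_nhds_iff.1 hN'
    rw [Real.ball_eq_Ioo] at hb
    have hsub : Icc (t - η / 2) (t + η / 2) ⊆ Ioo (t - η) (t + η) := by
      intro s hs
      exact ⟨by linarith [hs.1], by linarith [hs.2]⟩
    have hIcc : Icc (t - η / 2) (t + η / 2) ⊆ I := fun s hs => (hb (hsub hs)).2
    have ha : t - η / 2 ∈ I := hIcc ⟨le_rfl, by linarith⟩
    have hb' : t + η / 2 ∈ I := hIcc ⟨by linarith, le_rfl⟩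
    refine ⟨Ioo (x (t - η / 2)) (x (t + η / 2)), isOpen_Ioo.mem_nhds
      ⟨hmono ha ht (by linarith), hmono ht hb' (by linarith)⟩, ?_⟩
    intro X hX
    obtain ⟨s, hs, rfl⟩ := himg t ht (t - η / 2) (t + η / 2) (by linarith) (by linarith) hIcc hX
    have hsI : s ∈ I := hIcc (Ioo_subset_Icc_self hs)
    refine ⟨⟨s, hsI, rfl⟩, ?_⟩
    rw [hgx s hsI]
    exact (hb (hsub (Ioo_subset_Icc_self hs))).1
  have hopen : IsOpen (x '' I) := by
    rw [isOpen_iff_mem_nhds]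
    rintro _ ⟨t, ht, rfl⟩
    obtain ⟨M, hM, hM2⟩ := hnb t ht univ Filter.univ_mem
    exact Filter.mem_of_superset hM fun X hX => (hM2 X hX).1
  have hgc : ∀ t ∈ I, Tendsto g (𝓝 (x t)) (𝓝 t) := by
    intro t ht N hN
    obtain ⟨M, hM, hM2⟩ := hnb t ht N hN
    rw [Filter.mem_map]
    exact Filter.mem_of_superset hM fun X hX => (hM2 X hX).2
  refine ⟨fun X => y (g X), hopen, ?_, ?_⟩
  · apply contDiffOn_of_strict hopen
    rintro _ ⟨t, ht, rfl⟩
    -- direction at `t`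
    set w := v t / v₀ with hw
    have hwn : w ≠ 0 := div_ne_zero (hv t (hδT ht)) hv₀n
    have hk := key t (hδT ht)
    -- real part of `w` is positive
    have hnhds : ∀ᶠ q in 𝓝 ((t, t) : ℝ × ℝ), q.1 ∈ I ∧ q.2 ∈ I := by
      rw [nhds_prod_eq]
      exact (isOpen_Ioo.eventually_mem ht).prod_mk (isOpen_Ioo.eventually_mem ht)
    have hwre : 0 < w.re := by
      have h1 := hk (‖w‖ / 8) (by positivity)
      have h2 := h1.and hnhds
      rw [nhds_prod_eq] at h2
      obtain ⟨s, hs1, hs2⟩ := Filter.eventually_prod_self_iff'.1 h2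
      obtain ⟨η, hη, hb⟩ := Metric.mem_nhds_iff.1 hs1
      have hmem : t + η / 2 ∈ s := hb (by
        rw [Metric.mem_ball, Real.dist_eq, add_sub_cancel_left, abs_of_pos (by linarith)]
        linarith)
      obtain ⟨⟨σ, hσ, h3⟩, hI1, hI2⟩ := hs2 _ hmem t (mem_of_mem_nhds hs1)
      obtain ⟨σ', hσ', h4⟩ := hcone _ hI1 t hI2
      simp only [add_sub_cancel_left] at h3 h4
      rw [abs_of_pos (by linarith : (0 : ℝ) < η / 2)] at h3 h4
      set Z := Γ (t + η / 2) / v₀ - Γ t / v₀ with hZ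
      set c := σ * (η / 2) with hc
      set c' := σ' * (η / 2) with hc'
      have hcpos : 0 < c := by positivity
      have hc'pos : 0 < c' := by positivity
      have h3' : ‖Z - (c : ℂ) * w‖ ≤ ‖w‖ / 8 * c := by
        calc _ ≤ ‖w‖ / 8 * σ * (η / 2) := h3
          _ = _ := by rw [hc]; ring
      have h4' : ‖Z - (c' : ℂ)‖ ≤ c' / 2 := by
        calc _ ≤ 1 / 2 * σ' * (η / 2) := h4
          _ = _ := by rw [hc']; ring
      -- Re Z ≥ c'/2, |Z| ≤ 3c'/2, |Z| ≥ 7/8 c |w|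
      have e1 : c' / 2 ≤ Z.re := by
        have := (abs_le.1 ((Complex.abs_re_le_norm _).trans h4')).1
        simp only [Complex.sub_re, Complex.ofReal_re] at this
        linarith
      have e2 : ‖Z‖ ≤ 3 / 2 * c' := by
        calc ‖Z‖ = ‖(Z - c') + c'‖ := by ring_nf
          _ ≤ ‖Z - c'‖ + ‖(c' : ℂ)‖ := norm_add_le _ _
          _ ≤ c' / 2 + c' := by
            rw [Complex.norm_real, Real.norm_eq_abs, abs_of_pos hc'pos]
            gcongr
          _ = _ := by ring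
      have e3 : 7 / 8 * c * ‖w‖ ≤ ‖Z‖ := by
        have h5 : ‖(c : ℂ) * w‖ = c * ‖w‖ := by
          rw [norm_mul, Complex.norm_real, Real.norm_eq_abs, abs_of_pos hcpos]
        have h6 : ‖(c : ℂ) * w‖ ≤ ‖Z‖ + ‖Z - (c : ℂ) * w‖ := by
          calc ‖(c : ℂ) * w‖ = ‖Z - (Z - (c : ℂ) * w)‖ := by ring_nf
            _ ≤ _ := norm_sub_le _ _
        rw [h5] at h6
        nlinarith
      have e4 : Z.re - c * w.re ≤ ‖w‖ / 8 * c := by
        have := (abs_le.1 ((Complex.abs_re_le_norm _).trans h3')).2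
        simp only [Complex.sub_re, Complex.mul_re, Complex.ofReal_re, Complex.ofReal_im,
          zero_mul, sub_zero] at this
        exact this
      -- c * w.re ≥ c'/2 - |w| c / 8 ≥ ‖Z‖/3 - ‖Z‖/7 > 0
      have e5 : 0 < c * ‖w‖ := by positivity
      have e6 : 0 < c * w.re := by nlinarith
      exact pos_of_mul_pos_right (by linarith) hcpos.le
    refine ⟨w.im / w.re, ?_⟩
    rw [hasStrictDerivAt_iff_hasStrictFDerivAt]
    refine HasStrictFDerivAt.of_isLittleO ?_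
    rw [Asymptotics.isLittleO_iff]
    intro c hc
    -- choose epsilon
    set m := w.im / w.re with hm
    obtain ⟨ε, hε, hε1, hε2⟩ : ∃ ε > 0, ε ≤ w.re / 2 ∧ (1 + |m|) * ε ≤ c * (w.re / 2) := by
      refine ⟨min (w.re / 2) (c * (w.re / 2) / (1 + |m|)), ?_, min_le_left _ _, ?_⟩
      · apply lt_min
        · linarith
        · positivity
      · calc (1 + |m|) * min (w.re / 2) (c * (w.re / 2) / (1 + |m|)) ≤
            (1 + |m|) * (c * (w.re / 2) / (1 + |m|)) := by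
              gcongr
              exact min_le_right _ _
          _ = _ := by field_simp
    have h1 := (hk ε hε).and hnhds
    have hgp : Tendsto (fun q : ℝ × ℝ => (g q.1, g q.2)) (𝓝 (x t, x t)) (𝓝 (t, t)) := by
      rw [nhds_prod_eq, nhds_prod_eq]
      exact (hgc t ht).prodMap (hgc t ht)
    have hxI : ∀ᶠ q in 𝓝 ((x t, x t) : ℝ × ℝ), q.1 ∈ x '' I ∧ q.2 ∈ x '' I := by
      rw [nhds_prod_eq]
      exact (hopen.eventually_mem ⟨t, ht, rfl⟩).prod_mk (hopen.eventually_mem ⟨t, ht, rfl⟩)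
    filter_upwards [hgp.eventually h1, hxI] with q hq hqI
    obtain ⟨⟨σ, hσ, h3⟩, -, -⟩ := hq
    obtain ⟨hq1, hq2⟩ := hqI
    have hX1 : x (g q.1) = q.1 := (hgI _ hq1).2
    have hX2 : x (g q.2) = q.2 := (hgI _ hq2).2
    set a := g q.1 with ha
    set b := g q.2 with hb
    have r1 : |x a - x b - σ * (a - b) * w.re| ≤ ε * σ * |a - b| := by
      have := (Complex.abs_re_le_norm _).trans h3
      simpa only [Complex.sub_re, Complex.mul_re, Complex.ofReal_re, Complex.ofReal_im,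
          zero_mul, sub_zero] using this
    have r2 : |y a - y b - σ * (a - b) * w.im| ≤ ε * σ * |a - b| := by
      have := (Complex.abs_im_le_norm _).trans h3
      simpa only [Complex.sub_im, Complex.mul_im, Complex.ofReal_re, Complex.ofReal_im,
          zero_mul, add_zero] using this
    have r3 : w.re / 2 * (σ * |a - b|) ≤ |x a - x b| := by
      have h5 : |σ * (a - b) * w.re| = σ * |a - b| * w.re := by
        rw [abs_mul, abs_mul, abs_of_pos hσ, abs_of_pos hwre]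
      have h6 : |σ * (a - b) * w.re| ≤ |x a - x b| + |x a - x b - σ * (a - b) * w.re| := by
        calc |σ * (a - b) * w.re| = |(x a - x b) - (x a - x b - σ * (a - b) * w.re)| := by
              ring_nf
          _ ≤ _ := abs_sub _ _
      rw [h5] at h6
      have h7 : 0 ≤ σ * |a - b| := by positivity
      nlinarith
    have r4 : |y a - y b - m * (x a - x b)| ≤ (1 + |m|) * ε * (σ * |a - b|) := by
      have h5 : y a - y b - m * (x a - x b) = (y a - y b - σ * (a - b) * w.im) -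
          m * (x a - x b - σ * (a - b) * w.re) := by
        rw [hm]
        field_simp
        ring
      rw [h5]
      calc _ ≤ |y a - y b - σ * (a - b) * w.im| + |m * (x a - x b - σ * (a - b) * w.re)| :=
            abs_sub _ _
        _ ≤ ε * σ * |a - b| + |m| * (ε * σ * |a - b|) := by
            rw [abs_mul]
            gcongr
        _ = _ := by ring
    have r5 : |y a - y b - m * (x a - x b)| ≤ c * |x a - x b| := by
      have h7 : 0 ≤ σ * |a - b| := by positivity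
      calc _ ≤ (1 + |m|) * ε * (σ * |a - b|) := r4
        _ ≤ c * (w.re / 2) * (σ * |a - b|) := by gcongr
        _ = c * (w.re / 2 * (σ * |a - b|)) := by ring
        _ ≤ _ := by gcongr
    rw [← hX1, ← hX2]
    rw [Real.norm_eq_abs, Real.norm_eq_abs]
    have e : (y a - y b -
        (ContinuousLinearMap.toSpanSingleton ℝ m) (x a - x b)) =
        y a - y b - m * (x a - x b) := by
      simp
      ring
    rw [e]
    exact r5
  · intro t ht
    show y t = y (g (x t))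
    rw [hgx t ht]

end Pool.Agent.Q192.BD
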