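import Mathlib
import Pool.Agent.Q192.BD.Graph

namespace Pool.Agent.Q192.BD

open Topology Filter Set

/-- strict differentiability up to positive scalar factors -/
def SPD (f : ℂ → ℂ) (p : ℂ) : Prop :=
  ∃ L : ℂ ≃L[ℝ] ℂ, ∀ ε > 0, ∀ᶠ q in 𝓝 ((p, p) : ℂ × ℂ), ∃ s > 0,
    ‖f q.1 - f q.2 - (s : ℝ) • L (q.1 - q.2)‖ ≤ ε * s * ‖q.1 - q.2‖

theorem SPD.symm {f : ℂ ≃ₜ ℂ} {p : ℂ} (h : SPD f p) : SPD f.symm (f p) := by
  obtain ⟨L, hL⟩ := h
  refine ⟨L.symm, fun ε hε => ?_⟩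
  set m : ℝ := ‖(L.symm : ℂ →L[ℝ] ℂ)‖ + 1 with hm
  have hm0 : 0 < m := by positivity
  have hmle : ∀ z, ‖L.symm z‖ ≤ m * ‖z‖ := by
    intro z
    calc ‖L.symm z‖ ≤ ‖(L.symm : ℂ →L[ℝ] ℂ)‖ * ‖z‖ := (L.symm : ℂ →L[ℝ] ℂ).le_opNorm z
      _ ≤ m * ‖z‖ := by gcongr; rw [hm]; linarith
  obtain ⟨ε', hε', h1, h2⟩ : ∃ ε' > 0, m * ε' ≤ 1 / 2 ∧ 2 * m ^ 2 * ε' ≤ ε := by
    refine ⟨min (1 / (2 * m)) (ε / (2 * m ^ 2)), by positivity, ?_, ?_⟩
    · calc m * min (1 / (2 * m)) (ε / (2 * m ^ 2)) ≤ m * (1 / (2 * m)) := by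
            gcongr; exact min_le_left _ _
        _ = 1 / 2 := by field_simp
    · calc 2 * m ^ 2 * min (1 / (2 * m)) (ε / (2 * m ^ 2)) ≤ 2 * m ^ 2 * (ε / (2 * m ^ 2)) := by
            gcongr; exact min_le_right _ _
        _ = ε := by field_simp
  have h3 : Tendsto (fun q : ℂ × ℂ => (f.symm q.1, f.symm q.2)) (𝓝 (f p, f p)) (𝓝 (p, p)) := by
    have : Tendsto f.symm (𝓝 (f p)) (𝓝 p) := by
      have := f.symm.continuous.tendsto (f p)
      rwa [f.symm_apply_apply] at this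
    rw [nhds_prod_eq, nhds_prod_eq]
    exact this.prodMap this
  filter_upwards [h3.eventually (hL ε' hε')] with q hq
  obtain ⟨s, hs, h4⟩ := hq
  simp only [f.apply_symm_apply] at h4
  set a := f.symm q.1
  set b := f.symm q.2
  refine ⟨s⁻¹, inv_pos.2 hs, ?_⟩
  have h5 : ‖L.symm (q.1 - q.2) - s • (a - b)‖ ≤ m * (ε' * s * ‖a - b‖) := by
    have : L.symm (q.1 - q.2) - s • (a - b) = L.symm (q.1 - q.2 - s • L (a - b)) := by
      rw [map_sub (L.symm) (q.1 - q.2), map_smul, L.symm_apply_apply]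
    rw [this]
    exact (hmle _).trans (by gcongr)
  have h6 : s * ‖a - b‖ ≤ 2 * (m * ‖q.1 - q.2‖) := by
    have h7 : ‖s • (a - b)‖ ≤ ‖L.symm (q.1 - q.2)‖ + ‖L.symm (q.1 - q.2) - s • (a - b)‖ := by
      calc ‖s • (a - b)‖ = ‖L.symm (q.1 - q.2) - (L.symm (q.1 - q.2) - s • (a - b))‖ := by
            congr 1; abel
        _ ≤ _ := norm_sub_le _ _
    rw [norm_smul, Real.norm_eq_abs, abs_of_pos hs] at h7
    have h8 := hmle (q.1 - q.2)
    have h9 : 0 ≤ s * ‖a - b‖ := by positivity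
    nlinarith
  have h10 : a - b - s⁻¹ • L.symm (q.1 - q.2) = -(s⁻¹ • (L.symm (q.1 - q.2) - s • (a - b))) := by
    rw [smul_sub, smul_smul, inv_mul_cancel₀ hs.ne', one_smul]
    abel
  rw [h10, norm_neg, norm_smul, Real.norm_eq_abs, abs_of_pos (inv_pos.2 hs)]
  have h11 : m * (ε' * s * ‖a - b‖) ≤ ε * ‖q.1 - q.2‖ := by
    calc m * (ε' * s * ‖a - b‖) = m * ε' * (s * ‖a - b‖) := by ring
      _ ≤ m * ε' * (2 * (m * ‖q.1 - q.2‖)) := by gcongr
      _ = 2 * m ^ 2 * ε' * ‖q.1 - q.2‖ := by ring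
      _ ≤ _ := by gcongr
  calc s⁻¹ * ‖L.symm (q.1 - q.2) - s • (a - b)‖ ≤ s⁻¹ * (ε * ‖q.1 - q.2‖) := by
        gcongr
        exact h5.trans h11
    _ = _ := by ring

theorem SPD.psd {f : ℂ → ℂ} {β : ℝ → ℂ} {t : ℝ} (h : SPD f (β t)) {u : ℂ} (hu : u ≠ 0)
    (hβ : HasStrictDerivAt β u t) : ∃ v, v ≠ 0 ∧ PSD (fun s => f (β s)) t v := by
  obtain ⟨L, hL⟩ := h
  refine ⟨L u, fun h => hu (by simpa using h), fun ε hε => ?_⟩
  set m : ℝ := ‖(L : ℂ →L[ℝ] ℂ)‖ with hm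
  have hm0 : 0 ≤ m := norm_nonneg _
  have hmle : ∀ z, ‖L z‖ ≤ m * ‖z‖ := fun z => (L : ℂ →L[ℝ] ℂ).le_opNorm z
  obtain ⟨η, hη, hη1, h1⟩ : ∃ η > 0, η ≤ 1 ∧ η * (m + ‖u‖ + 1) ≤ ε := by
    refine ⟨min 1 (ε / (m + ‖u‖ + 1)), by positivity, min_le_left _ _, ?_⟩
    calc min 1 (ε / (m + ‖u‖ + 1)) * (m + ‖u‖ + 1) ≤ (ε / (m + ‖u‖ + 1)) * (m + ‖u‖ + 1) := by
          gcongr; exact min_le_right _ _
      _ = ε := by field_simp
  have h2 := hβ.isLittleO.def hη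
  have h3 : Tendsto (fun q : ℝ × ℝ => (β q.1, β q.2)) (𝓝 (t, t)) (𝓝 (β t, β t)) := by
    have : Tendsto β (𝓝 t) (𝓝 (β t)) := hβ.hasDerivAt.continuousAt
    rw [nhds_prod_eq, nhds_prod_eq]
    exact this.prodMap this
  filter_upwards [h2, h3.eventually (hL η hη)] with q h4 h5
  obtain ⟨s, hs, h6⟩ := h5
  refine ⟨s, hs, ?_⟩
  have h7 : ‖β q.1 - β q.2 - (q.1 - q.2) • u‖ ≤ η * |q.1 - q.2| := by
    simpa using h4
  have h8 : ‖β q.1 - β q.2‖ ≤ (‖u‖ + 1) * |q.1 - q.2| := by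
    calc ‖β q.1 - β q.2‖ = ‖(β q.1 - β q.2 - (q.1 - q.2) • u) + (q.1 - q.2) • u‖ := by
          congr 1; abel
      _ ≤ ‖β q.1 - β q.2 - (q.1 - q.2) • u‖ + ‖(q.1 - q.2) • u‖ := norm_add_le _ _
      _ ≤ η * |q.1 - q.2| + |q.1 - q.2| * ‖u‖ := by
          rw [norm_smul, Real.norm_eq_abs]
          gcongr
      _ ≤ 1 * |q.1 - q.2| + |q.1 - q.2| * ‖u‖ := by gcongr
      _ = _ := by ring
  have h9 : f (β q.1) - f (β q.2) - ((s * (q.1 - q.2) : ℝ) : ℂ) * L u =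
      (f (β q.1) - f (β q.2) - s • L (β q.1 - β q.2)) +
        s • L (β q.1 - β q.2 - (q.1 - q.2) • u) := by
    rw [map_sub L (β q.1 - β q.2), map_smul, smul_sub, smul_smul]
    rw [show ((s * (q.1 - q.2) : ℝ) : ℂ) * L u = (s * (q.1 - q.2)) • L u from by
      rw [Complex.real_smul]]
    abel
  rw [h9]
  calc _ ≤ ‖f (β q.1) - f (β q.2) - s • L (β q.1 - β q.2)‖ +
        ‖s • L (β q.1 - β q.2 - (q.1 - q.2) • u)‖ := norm_add_le _ _
    _ ≤ η * s * ‖β q.1 - β q.2‖ + s * (m * (η * |q.1 - q.2|)) := by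
        rw [norm_smul, Real.norm_eq_abs, abs_of_pos hs]
        gcongr
        exact (hmle _).trans (by gcongr)
    _ ≤ η * s * ((‖u‖ + 1) * |q.1 - q.2|) + s * (m * (η * |q.1 - q.2|)) := by gcongr
    _ = (η * (m + ‖u‖ + 1)) * s * |q.1 - q.2| := by ring
    _ ≤ _ := by gcongr

/-- the straightened arc of a chart -/
theorem chart_arc (Φ : OpenPartialHomeomorph ℂ (ℝ × ℝ)) (h1 : ContDiffOn ℝ 1 Φ Φ.source)
    (h2 : ContDiffOn ℝ 1 Φ.symm Φ.target) {t : ℝ} (ht : ((t, 0) : ℝ × ℝ) ∈ Φ.target) :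
    ∃ u : ℂ, u ≠ 0 ∧ HasStrictDerivAt (fun s : ℝ => Φ.symm (s, 0)) u t := by
  have h3 : ContDiffAt ℝ 1 Φ.symm (t, 0) := h2.contDiffAt (Φ.open_target.mem_nhds ht)
  have h4 := h3.hasStrictFDerivAt (by simp)
  set A := fderiv ℝ Φ.symm (t, 0)
  have h5 : ContDiffAt ℝ 1 Φ (Φ.symm (t, 0)) :=
    h1.contDiffAt (Φ.open_source.mem_nhds (Φ.map_target ht))
  have h6 := h5.hasStrictFDerivAt (by simp)
  set B := fderiv ℝ Φ (Φ.symm (t, 0))
  have h7 : HasFDerivAt (fun x => Φ (Φ.symm x)) (B.comp A) (t, 0) :=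
    h6.hasFDerivAt.comp (t, 0) h4.hasFDerivAt
  have h8 : HasFDerivAt (fun x => Φ (Φ.symm x)) (ContinuousLinearMap.id ℝ (ℝ × ℝ)) (t, 0) := by
    refine (hasFDerivAt_id (t, (0 : ℝ))).congr_of_eventuallyEq ?_
    filter_upwards [Φ.open_target.mem_nhds ht] with x hx
    exact Φ.right_inv hx
  have h9 := h7.unique h8
  have h10 : HasStrictDerivAt (fun s : ℝ => ((s, 0) : ℝ × ℝ)) (1, 0) t :=
    (hasStrictDerivAt_id t).prodMk (hasStrictDerivAt_const t (0 : ℝ))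
  refine ⟨A (1, 0), ?_, h4.comp_hasStrictDerivAt t h10⟩
  intro h
  have h11 : B.comp A (1, 0) = (1, 0) := by rw [h9]; rfl
  rw [ContinuousLinearMap.comp_apply, h, map_zero] at h11
  have := congrArg Prod.fst h11
  simp at this

theorem submanifold_image {f : ℂ ≃ₜ ℂ} (hf : ∀ p, SPD f p) {C : Set ℂ}
    (hC : IsC1Submanifold C) : IsC1Submanifold (f '' C) := by
  rintro _ ⟨p, hp, rfl⟩
  obtain ⟨Φ, hpΦ, hΦ1, hΦ2, hΦC⟩ := hC p hp
  set x₀ := (Φ p).1 with hx₀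
  have hΦp : Φ p = (x₀, 0) := Prod.ext rfl ((hΦC p hpΦ).1 hp)
  set T : Set ℝ := {t | ((t, 0) : ℝ × ℝ) ∈ Φ.target} with hT
  have hTo : IsOpen T := Φ.open_target.preimage (by fun_prop)
  have hx₀T : x₀ ∈ T := by
    show ((x₀, 0) : ℝ × ℝ) ∈ Φ.target
    rw [← hΦp]
    exact Φ.map_source hpΦ
  set β : ℝ → ℂ := fun s => Φ.symm (s, 0) with hβ
  have hβc : ContinuousOn β T := Φ.continuousOn_symm.comp (by fun_prop) (fun t ht => ht)
  have hex : ∀ t : ℝ, ∃ v : ℂ, t ∈ T → v ≠ 0 ∧ PSD (fun s => f (β s)) t v := by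
    intro t
    by_cases ht : t ∈ T
    · obtain ⟨u, hu, hu2⟩ := chart_arc Φ hΦ1 hΦ2 ht
      obtain ⟨v, hv⟩ := (hf (β t)).psd hu hu2
      exact ⟨v, fun _ => hv⟩
    · exact ⟨0, fun h => absurd h ht⟩
  choose v hv using hex
  obtain ⟨δ, hδ, hδT, h, hJo, hh, hgr⟩ := graph_lemma (Γ := fun s => f (β s)) hTo hx₀T
    (f.continuous.comp_continuousOn hβc) (fun t ht => (hv t ht).1) (fun t ht => (hv t ht).2)
  set v₀ := v x₀ with hv₀
  have hv₀n : v₀ ≠ 0 := (hv x₀ hx₀T).1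
  set I := Ioo (x₀ - δ) (x₀ + δ) with hI
  set J := (fun t => (f (β t) / v₀).re) '' I with hJ
  set V : Set ℂ := Φ.source ∩ Φ ⁻¹' {q : ℝ × ℝ | q.1 ∈ I} with hV
  have hVo : IsOpen V := Φ.isOpen_inter_preimage (isOpen_Ioo.preimage continuous_fst)
  have hVC : ∀ z ∈ V, z ∈ C → ∃ t ∈ I, z = β t := by
    rintro z ⟨hz1, hz2⟩ hz3
    refine ⟨(Φ z).1, hz2, ?_⟩
    have : Φ z = ((Φ z).1, 0) := Prod.ext rfl ((hΦC z hz1).1 hz3)
    show z = Φ.symm ((Φ z).1, 0)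
    rw [← this, Φ.left_inv hz1]
  have hβC : ∀ t ∈ I, β t ∈ C ∧ β t ∈ V := by
    intro t ht
    have h1 : ((t, 0) : ℝ × ℝ) ∈ Φ.target := hδT ht
    have h2 : β t ∈ Φ.source := Φ.map_target h1
    have h3 : Φ (β t) = (t, 0) := Φ.right_inv h1
    refine ⟨(hΦC _ h2).2 (by rw [h3]), h2, ?_⟩
    show (Φ (β t)).1 ∈ I
    rw [h3]; exact ht
  have hfV : IsOpen (f '' V) := f.isOpenMap V hVo
  have hhc : ContinuousOn h J := hh.continuousOn
  -- the new chart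
  let Ψ : OpenPartialHomeomorph ℂ (ℝ × ℝ) :=
    { toFun := fun z => ((z / v₀).re, (z / v₀).im - h ((z / v₀).re))
      invFun := fun q => v₀ * ((q.1 : ℂ) + ((q.2 + h q.1 : ℝ) : ℂ) * Complex.I)
      source := (f '' V) ∩ {z | (z / v₀).re ∈ J}
      target := {q | q.1 ∈ J ∧ v₀ * ((q.1 : ℂ) + ((q.2 + h q.1 : ℝ) : ℂ) * Complex.I) ∈ f '' V}
      map_source' := by
        rintro z ⟨hz1, hz2⟩
        refine ⟨hz2, ?_⟩
        have : v₀ * ((((z / v₀).re : ℝ) : ℂ) +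
            ((((z / v₀).im - h ((z / v₀).re) + h ((z / v₀).re) : ℝ)) : ℂ) * Complex.I) = z := by
          rw [sub_add_cancel, Complex.re_add_im]
          field_simp
        simp only
        rw [this]
        exact hz1
      map_target' := by
        rintro ⟨x, y⟩ ⟨hq1, hq2⟩
        refine ⟨hq2, ?_⟩
        simp only [mem_ofPred_eq]
        rw [mul_div_cancel_left₀ _ hv₀n]
        simpa using hq1
      left_inv' := by
        rintro z ⟨hz1, hz2⟩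
        simp only
        rw [sub_add_cancel, Complex.re_add_im]
        field_simp
      right_inv' := by
        rintro ⟨x, y⟩ ⟨hq1, hq2⟩
        simp only
        rw [mul_div_cancel_left₀ _ hv₀n]
        have e1 : ((x : ℂ) + ((y + h x : ℝ) : ℂ) * Complex.I).re = x := by simp
        have e2 : ((x : ℂ) + ((y + h x : ℝ) : ℂ) * Complex.I).im = y + h x := by simp
        rw [e1, e2]
        simp
      open_source := by
        apply hfV.inter
        exact hJo.preimage (by fun_prop)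
      open_target := by
        have h1 : ContinuousOn (fun q : ℝ × ℝ =>
            v₀ * ((q.1 : ℂ) + ((q.2 + h q.1 : ℝ) : ℂ) * Complex.I)) (Prod.fst ⁻¹' J) := by
          have h2 : ContinuousOn (fun q : ℝ × ℝ => h q.1) (Prod.fst ⁻¹' J) :=
            hhc.comp continuous_fst.continuousOn (fun q hq => hq)
          have h3 : ContinuousOn (fun q : ℝ × ℝ => ((q.2 + h q.1 : ℝ) : ℂ)) (Prod.fst ⁻¹' J) :=
            Complex.continuous_ofReal.comp_continuousOn (continuous_snd.continuousOn.add h2)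
          have h4 : ContinuousOn (fun q : ℝ × ℝ => (q.1 : ℂ)) (Prod.fst ⁻¹' J) :=
            (Complex.continuous_ofReal.comp continuous_fst).continuousOn
          exact continuousOn_const.mul (h4.add (h3.mul continuousOn_const))
        exact h1.isOpen_inter_preimage (hJo.preimage continuous_fst) hfV
      continuousOn_toFun := by
        have h1 : ContinuousOn (fun z : ℂ => h ((z / v₀).re))
            ((f '' V) ∩ {z | (z / v₀).re ∈ J}) :=
          hhc.comp (Continuous.continuousOn (by fun_prop)) (fun z hz => hz.2)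
        refine ContinuousOn.prodMk (Continuous.continuousOn (by fun_prop)) ?_
        exact (Continuous.continuousOn (by fun_prop)).sub h1
      continuousOn_invFun := by
        have h2 : ContinuousOn (fun q : ℝ × ℝ => h q.1)
            {q | q.1 ∈ J ∧ v₀ * ((q.1 : ℂ) + ((q.2 + h q.1 : ℝ) : ℂ) * Complex.I) ∈ f '' V} :=
          hhc.comp continuous_fst.continuousOn (fun q hq => hq.1)
        have h3 := Complex.continuous_ofReal.comp_continuousOn (continuous_snd.continuousOn.add h2)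
        have h4 : ContinuousOn (fun q : ℝ × ℝ => (q.1 : ℂ))
            {q | q.1 ∈ J ∧ v₀ * ((q.1 : ℂ) + ((q.2 + h q.1 : ℝ) : ℂ) * Complex.I) ∈ f '' V} :=
          (Complex.continuous_ofReal.comp continuous_fst).continuousOn
        exact continuousOn_const.mul (h4.add (h3.mul continuousOn_const)) }
  have hdivre : ContDiff ℝ 1 (fun z : ℂ => (z / v₀).re) := by
    have : ContDiff ℝ 1 (fun z : ℂ => z / v₀) := by
      simp only [div_eq_mul_inv]
      exact contDiff_id.mul contDiff_const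
    exact Complex.reCLM.contDiff.comp this
  have hdivim : ContDiff ℝ 1 (fun z : ℂ => (z / v₀).im) := by
    have : ContDiff ℝ 1 (fun z : ℂ => z / v₀) := by
      simp only [div_eq_mul_inv]
      exact contDiff_id.mul contDiff_const
    exact Complex.imCLM.contDiff.comp this
  refine ⟨Ψ, ?_, ?_, ?_, ?_⟩
  · have h1 := hβC x₀ ⟨by linarith, by linarith⟩
    have h2 : β x₀ = p := by
      show Φ.symm (x₀, 0) = p
      rw [← hΦp, Φ.left_inv hpΦ]
    refine ⟨⟨p, h2 ▸ h1.2, rfl⟩, ⟨x₀, ⟨by linarith, by linarith⟩, ?_⟩⟩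
    show (f (β x₀) / v₀).re = (f p / v₀).re
    rw [h2]
  · show ContDiffOn ℝ 1 (fun z => ((z / v₀).re, (z / v₀).im - h ((z / v₀).re)))
      ((f '' V) ∩ {z | (z / v₀).re ∈ J})
    have h1 : ContDiffOn ℝ 1 (fun z : ℂ => h ((z / v₀).re))
        ((f '' V) ∩ {z | (z / v₀).re ∈ J}) := hh.comp hdivre.contDiffOn (fun z hz => hz.2)
    exact hdivre.contDiffOn.prodMk (hdivim.contDiffOn.sub h1)
  · show ContDiffOn ℝ 1 (fun q : ℝ × ℝ => v₀ * ((q.1 : ℂ) + ((q.2 + h q.1 : ℝ) : ℂ) * Complex.I))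
      {q | q.1 ∈ J ∧ v₀ * ((q.1 : ℂ) + ((q.2 + h q.1 : ℝ) : ℂ) * Complex.I) ∈ f '' V}
    have h2 : ContDiffOn ℝ 1 (fun q : ℝ × ℝ => h q.1)
        {q | q.1 ∈ J ∧ v₀ * ((q.1 : ℂ) + ((q.2 + h q.1 : ℝ) : ℂ) * Complex.I) ∈ f '' V} :=
      hh.comp contDiff_fst.contDiffOn (fun q hq => hq.1)
    have h3 := Complex.ofRealCLM.contDiff.comp_contDiffOn (contDiff_snd.contDiffOn.add h2)
    have h4 : ContDiffOn ℝ 1 (fun q : ℝ × ℝ => (q.1 : ℂ))
        {q | q.1 ∈ J ∧ v₀ * ((q.1 : ℂ) + ((q.2 + h q.1 : ℝ) : ℂ) * Complex.I) ∈ f '' V} :=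
      (Complex.ofRealCLM.contDiff.comp contDiff_fst).contDiffOn
    exact contDiffOn_const.mul (h4.add (h3.mul contDiffOn_const))
  · rintro z ⟨⟨w, hwV, rfl⟩, hzJ⟩
    show f w ∈ f '' C ↔ (f w / v₀).im - h ((f w / v₀).re) = 0
    constructor
    · rintro ⟨c, hc, hce⟩
      have hcw : c = w := f.injective hce
      subst hcw
      obtain ⟨t, ht, htz⟩ := hVC c hwV hc
      rw [htz, sub_eq_zero]
      exact hgr t ht
    · intro h0
      obtain ⟨t, ht, htz⟩ := hzJ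
      simp only at htz
      have h1 : f (β t) / v₀ = f w / v₀ := by
        apply Complex.ext
        · exact htz
        · rw [hgr t ht, htz, eq_comm, ← sub_eq_zero]
          exact h0
      have h2 : f (β t) = f w := by
        field_simp at h1
        exact h1
      exact ⟨β t, (hβC t ht).1, h2⟩

theorem curve_image {f : ℂ ≃ₜ ℂ} (hf : ∀ p, SPD f p) {C : Set ℂ}
    (hC : IsC1Curve C) : IsC1Curve (f '' C) := by
  obtain ⟨⟨γ, hγ1, hγ2, hγ3⟩, hC2⟩ := hC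
  refine ⟨⟨fun t => f (γ t), f.continuous.comp hγ1, f.injective.comp hγ2, ?_⟩,
    submanifold_image hf hC2⟩
  rw [← hγ3, ← range_comp]
  rfl

theorem inHomeo1_of_spd {f : ℂ ≃ₜ ℂ} (hf : ∀ p, SPD f p) : InHomeo1 f := by
  refine ⟨fun C hC => curve_image hf hC, fun C hC => curve_image (fun p => ?_) hC⟩
  have := (hf (f.symm p)).symm
  rwa [f.apply_symm_apply] at this

end Pool.Agent.Q192.BD
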