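import Mathlib

namespace Pool.Agent.Q192.BD

open Topology Filter Set

/-- the logarithmic profile -/
noncomputable def Lg (r : ℝ) : ℝ := Real.log (1 + (r ^ 2)⁻¹)

/-- the radial map `x ↦ log(1 + 1/|x|²) x` -/
noncomputable def phi (x : ℂ) : ℂ := Lg ‖x‖ • x

theorem Lg_nonneg (r : ℝ) : 0 ≤ Lg r := by
  apply Real.log_nonneg
  have : 0 ≤ (r ^ 2)⁻¹ := by positivity
  linarith

theorem Lg_anti {r r' : ℝ} (hr : 0 < r) (h : r ≤ r') : Lg r' ≤ Lg r := by
  unfold Lg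
  apply Real.log_le_log
  · positivity
  · gcongr

theorem Lg_diff {r r' : ℝ} (hr : 0 < r) (h : r ≤ r') : r * (Lg r - Lg r') ≤ 2 * (r' - r) := by
  have hr' : 0 < r' := hr.trans_le h
  have h1 : Lg r - Lg r' ≤ 2 * (r' / r - 1) := by
    unfold Lg
    rw [← Real.log_div (by positivity) (by positivity)]
    have h2 : (1 + (r ^ 2)⁻¹) / (1 + (r' ^ 2)⁻¹) ≤ (r' / r) ^ 2 := by
      rw [div_le_iff₀ (by positivity)]
      have : (r' / r) ^ 2 * (1 + (r' ^ 2)⁻¹) = r' ^ 2 / r ^ 2 + (r ^ 2)⁻¹ := by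
        field_simp
      rw [this]
      have h3 : 1 ≤ r' ^ 2 / r ^ 2 := by
        rw [one_le_div (by positivity)]
        gcongr
      linarith
    calc _ ≤ Real.log ((r' / r) ^ 2) := Real.log_le_log (by positivity) h2
      _ = 2 * Real.log (r' / r) := by rw [Real.log_pow]; norm_num
      _ ≤ 2 * (r' / r - 1) := by
        gcongr
        exact Real.log_le_sub_one_of_pos (by positivity)
  calc r * (Lg r - Lg r') ≤ r * (2 * (r' / r - 1)) := by gcongr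
    _ = _ := by field_simp

theorem Lg_le_sqrt {r : ℝ} (hr : 0 < r) : r * Lg r ≤ 4 * Real.sqrt r := by
  set t := Real.sqrt r with ht
  have ht0 : 0 < t := Real.sqrt_pos.2 hr
  have htr : t ^ 2 = r := Real.sq_sqrt hr.le
  have h1 : Lg r ≤ 4 * t⁻¹ := by
    unfold Lg
    rw [← htr]
    have h2 : 1 + ((t ^ 2) ^ 2)⁻¹ ≤ (1 + t⁻¹) ^ 4 := by
      have h3 : ((t ^ 2) ^ 2)⁻¹ = (t⁻¹) ^ 4 := by
        rw [inv_pow]; ring
      rw [h3]
      have h4 : 0 < t⁻¹ := inv_pos.2 ht0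
      nlinarith [pow_pos h4 2, pow_pos h4 3, pow_pos h4 4]
    calc _ ≤ Real.log ((1 + t⁻¹) ^ 4) := Real.log_le_log (by positivity) h2
      _ = 4 * Real.log (1 + t⁻¹) := by rw [Real.log_pow]; norm_num
      _ ≤ 4 * t⁻¹ := by
        gcongr
        have := Real.log_le_sub_one_of_pos (show 0 < 1 + t⁻¹ by positivity)
        linarith
  calc r * Lg r ≤ r * (4 * t⁻¹) := by gcongr
    _ = 4 * t := by rw [← htr]; field_simp

theorem Lg_le_two {r : ℝ} (hr : 0 < r) : r * Lg r ≤ 2 := by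
  have h1 : Lg r ≤ 2 * r⁻¹ := by
    unfold Lg
    have h2 : 1 + (r ^ 2)⁻¹ ≤ (1 + r⁻¹) ^ 2 := by
      have h4 : 0 < r⁻¹ := inv_pos.2 hr
      have h3 : (r ^ 2)⁻¹ = (r⁻¹) ^ 2 := by rw [inv_pow]
      rw [h3]
      nlinarith
    calc _ ≤ Real.log ((1 + r⁻¹) ^ 2) := Real.log_le_log (by positivity) h2
      _ = 2 * Real.log (1 + r⁻¹) := by rw [Real.log_pow]; norm_num
      _ ≤ 2 * r⁻¹ := by
        gcongr
        have := Real.log_le_sub_one_of_pos (show 0 < 1 + r⁻¹ by positivity)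
        linarith
  calc r * Lg r ≤ r * (2 * r⁻¹) := by gcongr
    _ = 2 := by field_simp

theorem norm_phi (x : ℂ) : ‖phi x‖ = ‖x‖ * Lg ‖x‖ := by
  unfold phi
  rw [norm_smul, Real.norm_eq_abs, abs_of_nonneg (Lg_nonneg _), mul_comm]

theorem norm_phi_le (x : ℂ) : ‖phi x‖ ≤ 2 := by
  rw [norm_phi]
  rcases eq_or_ne x 0 with h | h
  · simp [h]
  · exact Lg_le_two (norm_pos_iff.2 h)

theorem contDiffAt_phi {x : ℂ} (hx : x ≠ 0) : ContDiffAt ℝ 1 phi x := by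
  unfold phi Lg
  have h1 : ContDiffAt ℝ 1 (fun y : ℂ => ‖y‖ ^ 2) x := (contDiff_norm_sq ℝ).contDiffAt
  have h2 : ‖x‖ ^ 2 ≠ 0 := by positivity
  have h3 : ContDiffAt ℝ 1 (fun y : ℂ => (1 + (‖y‖ ^ 2)⁻¹)) x :=
    contDiffAt_const.add (h1.inv h2)
  have h4 : ContDiffAt ℝ 1 (fun y : ℂ => Real.log (1 + (‖y‖ ^ 2)⁻¹)) x :=
    h3.log (by positivity)
  exact h4.smul contDiffAt_id

theorem continuous_phi : Continuous phi := by
  rw [continuous_iff_continuousAt]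
  intro x
  rcases eq_or_ne x 0 with h | h
  · subst h
    have h0 : phi 0 = 0 := by simp [phi]
    unfold ContinuousAt
    rw [h0]
    apply squeeze_zero_norm (a := fun x : ℂ => 4 * Real.sqrt ‖x‖)
    · intro x
      rw [norm_phi]
      rcases eq_or_ne x 0 with h | h
      · simp [h]
      · exact Lg_le_sqrt (norm_pos_iff.2 h)
    · have : Continuous fun x : ℂ => 4 * Real.sqrt ‖x‖ := by fun_prop
      have := this.tendsto 0
      simpa using this
  · exact (contDiffAt_phi h).continuousAt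

/-- the key difference estimate -/
theorem phi_sub {z w : ℂ} (hzw : z ≠ w) :
    ‖phi z - phi w - Lg (max ‖z‖ ‖w‖) • (z - w)‖ ≤ 2 * ‖z - w‖ := by
  have main : ∀ a b : ℂ, a ≠ b → ‖a‖ ≤ ‖b‖ →
      ‖phi a - phi b - Lg ‖b‖ • (a - b)‖ ≤ 2 * ‖a - b‖ := by
    intro a b hab hle
    have e : phi a - phi b - Lg ‖b‖ • (a - b) = (Lg ‖a‖ - Lg ‖b‖) • a := by
      unfold phi
      rw [smul_sub, sub_smul]
      abel
    rw [e, norm_smul, Real.norm_eq_abs]
    rcases eq_or_ne a 0 with h | h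
    · simp [h]
    · have ha : 0 < ‖a‖ := norm_pos_iff.2 h
      rw [abs_of_nonneg (sub_nonneg.2 (Lg_anti ha hle)), mul_comm]
      calc _ ≤ 2 * (‖b‖ - ‖a‖) := Lg_diff ha hle
        _ ≤ 2 * ‖a - b‖ := by
          gcongr
          rw [norm_sub_rev]
          exact norm_sub_norm_le b a
  rcases le_total ‖z‖ ‖w‖ with h | h
  · rw [max_eq_right h]
    exact main z w hzw h
  · rw [max_eq_left h]
    have := main w z hzw.symm h
    have e : phi z - phi w - Lg ‖z‖ • (z - w) = -(phi w - phi z - Lg ‖z‖ • (w - z)) := by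
      rw [smul_sub, smul_sub]
      abel
    rw [e, norm_neg, norm_sub_rev z w]
    exact this

theorem max_ge {z w : ℂ} : ‖z - w‖ / 2 ≤ max ‖z‖ ‖w‖ := by
  have h1 := norm_sub_le z w
  have h2 := le_max_left ‖z‖ ‖w‖
  have h3 := le_max_right ‖z‖ ‖w‖
  linarith

theorem fderiv_phi_le {x : ℂ} {d : ℝ} (hd : 0 < d) (hx : d ≤ ‖x‖) :
    ‖fderiv ℝ phi x‖ ≤ Lg d + 2 := by
  apply norm_fderiv_le_of_lip' ℝ (by have := Lg_nonneg d; linarith)
  filter_upwards with y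
  rcases eq_or_ne y x with h | h
  · simp [h]
  · have h1 := phi_sub h
    have h2 : Lg (max ‖y‖ ‖x‖) ≤ Lg d := Lg_anti hd (hx.trans (le_max_right _ _))
    calc ‖phi y - phi x‖ = ‖(phi y - phi x - Lg (max ‖y‖ ‖x‖) • (y - x)) +
          Lg (max ‖y‖ ‖x‖) • (y - x)‖ := by congr 1; abel
      _ ≤ 2 * ‖y - x‖ + Lg (max ‖y‖ ‖x‖) * ‖y - x‖ := by
          refine (norm_add_le _ _).trans ?_
          rw [norm_smul, Real.norm_eq_abs, abs_of_nonneg (Lg_nonneg _)]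
          gcongr
      _ ≤ 2 * ‖y - x‖ + Lg d * ‖y - x‖ := by gcongr
      _ = _ := by ring

end Pool.Agent.Q192.BD
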