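import Mathlib
import Pool.Agent.Q192.BD.Curve
import Pool.Agent.Q192.BD.Phi

namespace Pool.Agent.Q192.BD

open Topology Filter Set

/-- the data of the construction -/
structure Dat (ι : Type) where
  a : ι → ℝ
  w : ι → ℂ
  K : Set ℂ
  nn : ∀ i, 0 ≤ a i
  sum : Summable a
  le : ∑' i, a i ≤ 1 / 4
  comp : IsCompact K
  real : ∀ z ∈ K, z.im = 0
  mem : ∀ i, w i ∈ K
  big : ∀ z ∈ K, ∀ M : ℝ, ∃ i, ∀ᶠ x in 𝓝 z, x ≠ w i → M ≤ a i * Lg ‖x - w i‖

variable {ι : Type} (P : Dat ι)

namespace Dat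

/-- the series -/
noncomputable def G (z : ℂ) : ℂ := ∑' i, P.a i • phi (z - P.w i)

/-- the map -/
noncomputable def F (z : ℂ) : ℂ := z + P.G z

theorem term_le (i : ι) (z : ℂ) : ‖P.a i • phi (z - P.w i)‖ ≤ P.a i * 2 := by
  rw [norm_smul, Real.norm_eq_abs, abs_of_nonneg (P.nn i)]
  gcongr
  · exact P.nn i
  · exact norm_phi_le _

theorem summable_term (z : ℂ) : Summable fun i => P.a i • phi (z - P.w i) :=
  Summable.of_norm_bounded (P.sum.mul_right 2) fun i => P.term_le i z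

theorem continuous_G : Continuous P.G := by
  apply continuous_tsum (u := fun i => P.a i * 2)
  · intro i
    have h : Continuous fun z => phi (z - P.w i) :=
      continuous_phi.comp (continuous_id.sub continuous_const)
    exact h.fun_const_smul (P.a i)
  · exact P.sum.mul_right 2
  · intro i z
    exact P.term_le i z

theorem continuous_F : Continuous P.F := continuous_id.add P.continuous_G

/-- the scalar factor -/
noncomputable def S (z w : ℂ) : ℝ := 1 + ∑' i, P.a i * Lg (max ‖z - P.w i‖ ‖w - P.w i‖)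

theorem S_term_le {z w : ℂ} (h : z ≠ w) (i : ι) :
    P.a i * Lg (max ‖z - P.w i‖ ‖w - P.w i‖) ≤ P.a i * Lg (‖z - w‖ / 2) := by
  have h1 : ‖z - w‖ / 2 ≤ max ‖z - P.w i‖ ‖w - P.w i‖ := by
    have := max_ge (z := z - P.w i) (w := w - P.w i)
    rwa [sub_sub_sub_cancel_right] at this
  have h2 : 0 < ‖z - w‖ / 2 := by
    have := norm_pos_iff.2 (sub_ne_zero.2 h)
    positivity
  exact mul_le_mul_of_nonneg_left (Lg_anti h2 h1) (P.nn i)

theorem S_term_nonneg (z w : ℂ) (i : ι) :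
    0 ≤ P.a i * Lg (max ‖z - P.w i‖ ‖w - P.w i‖) := mul_nonneg (P.nn i) (Lg_nonneg _)

theorem S_summable {z w : ℂ} (h : z ≠ w) :
    Summable fun i => P.a i * Lg (max ‖z - P.w i‖ ‖w - P.w i‖) :=
  Summable.of_nonneg_of_le (P.S_term_nonneg z w) (P.S_term_le h) (P.sum.mul_right _)

theorem S_ge_one (z w : ℂ) : 1 ≤ P.S z w := by
  unfold S
  have : 0 ≤ ∑' i, P.a i * Lg (max ‖z - P.w i‖ ‖w - P.w i‖) :=
    tsum_nonneg (P.S_term_nonneg z w)
  linarith

theorem S_ge_term {z w : ℂ} (h : z ≠ w) (i : ι) :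
    P.a i * Lg (max ‖z - P.w i‖ ‖w - P.w i‖) ≤ P.S z w := by
  unfold S
  have := (P.S_summable h).le_tsum i (fun j _ => P.S_term_nonneg z w j)
  linarith

theorem F_sub {z w : ℂ} (h : z ≠ w) :
    ‖P.F z - P.F w - P.S z w • (z - w)‖ ≤ 1 / 2 * ‖z - w‖ := by
  have h1 := P.summable_term z
  have h2 := P.summable_term w
  have h3 := (P.S_summable h).smul_const (z - w)
  have e : P.F z - P.F w - P.S z w • (z - w) = ∑' i, (P.a i • phi (z - P.w i) -
      P.a i • phi (w - P.w i) -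
      (P.a i * Lg (max ‖z - P.w i‖ ‖w - P.w i‖)) • (z - w)) := by
    rw [(h1.sub h2).tsum_sub h3, h1.tsum_sub h2]
    unfold F G S
    rw [add_smul, one_smul, ← (P.S_summable h).tsum_smul_const]
    abel
  rw [e]
  have h4 : ∀ i, ‖P.a i • phi (z - P.w i) - P.a i • phi (w - P.w i) -
      (P.a i * Lg (max ‖z - P.w i‖ ‖w - P.w i‖)) • (z - w)‖ ≤ P.a i * (2 * ‖z - w‖) := by
    intro i
    have h5 := phi_sub (z := z - P.w i) (w := w - P.w i) (fun h' => h (sub_left_injective h'))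
    rw [sub_sub_sub_cancel_right] at h5
    rw [mul_smul, ← smul_sub, ← smul_sub, norm_smul, Real.norm_eq_abs, abs_of_nonneg (P.nn i)]
    exact mul_le_mul_of_nonneg_left h5 (P.nn i)
  calc _ ≤ ∑' i, P.a i * (2 * ‖z - w‖) := by
        apply tsum_of_norm_bounded (P.sum.mul_right _).hasSum h4
    _ = (∑' i, P.a i) * (2 * ‖z - w‖) := by rw [tsum_mul_right]
    _ ≤ 1 / 4 * (2 * ‖z - w‖) := by
        gcongr
        exact P.le
    _ = _ := by ring

theorem F_lower {z w : ℂ} (h : z ≠ w) : (P.S z w - 1 / 2) * ‖z - w‖ ≤ ‖P.F z - P.F w‖ := by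
  have h1 := P.F_sub h
  have h2 : ‖P.S z w • (z - w)‖ ≤ ‖P.F z - P.F w‖ + ‖P.F z - P.F w - P.S z w • (z - w)‖ := by
    calc ‖P.S z w • (z - w)‖ = ‖(P.F z - P.F w) - (P.F z - P.F w - P.S z w • (z - w))‖ := by
          congr 1; abel
      _ ≤ _ := norm_sub_le _ _
  rw [norm_smul, Real.norm_eq_abs, abs_of_nonneg (by linarith [P.S_ge_one z w])] at h2
  linarith

theorem F_lower' (z w : ℂ) : 1 / 2 * ‖z - w‖ ≤ ‖P.F z - P.F w‖ := by
  rcases eq_or_ne z w with h | h
  · simp [h]
  · refine le_trans ?_ (P.F_lower h)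
    gcongr
    linarith [P.S_ge_one z w]

theorem F_inj : Function.Injective P.F := by
  intro z w h
  have := P.F_lower' z w
  rw [h, sub_self, norm_zero] at this
  have h2 : ‖z - w‖ ≤ 0 := by linarith
  exact sub_eq_zero.1 (norm_le_zero_iff.1 h2)

/-- near a point of `K` the factor is large -/
theorem S_large {z₀ : ℂ} (hz : z₀ ∈ P.K) (M : ℝ) :
    ∀ᶠ q in 𝓝 ((z₀, z₀) : ℂ × ℂ), q.1 ≠ q.2 → M ≤ P.S q.1 q.2 := by
  obtain ⟨i, hi⟩ := P.big z₀ hz M
  have h1 : ∀ᶠ q in 𝓝 ((z₀, z₀) : ℂ × ℂ), (q.1 ≠ P.w i → M ≤ P.a i * Lg ‖q.1 - P.w i‖) ∧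
      (q.2 ≠ P.w i → M ≤ P.a i * Lg ‖q.2 - P.w i‖) := by
    rw [nhds_prod_eq]
    exact hi.prod_mk hi
  filter_upwards [h1] with q hq hne
  refine le_trans ?_ (P.S_ge_term hne i)
  rcases le_total ‖q.1 - P.w i‖ ‖q.2 - P.w i‖ with h | h
  · rw [max_eq_right h]
    apply hq.2
    intro h2
    rw [h2, sub_self, norm_zero] at h
    have h3 : q.1 = P.w i := sub_eq_zero.1 (norm_le_zero_iff.1 h)
    exact hne (h3.trans h2.symm)
  · rw [max_eq_left h]
    apply hq.1
    intro h2
    rw [h2, sub_self, norm_zero] at h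
    have h3 : q.2 = P.w i := sub_eq_zero.1 (norm_le_zero_iff.1 h)
    exact hne (h2.trans h3.symm)

theorem spd_mem {z₀ : ℂ} (hz : z₀ ∈ P.K) : SPD P.F z₀ := by
  refine ⟨ContinuousLinearEquiv.refl ℝ ℂ, fun ε hε => ?_⟩
  filter_upwards [P.S_large hz (1 / 2 / ε)] with q hq
  rcases eq_or_ne q.1 q.2 with h | h
  · exact ⟨1, one_pos, by simp [h]⟩
  · refine ⟨P.S q.1 q.2, by linarith [P.S_ge_one q.1 q.2], ?_⟩
    refine (P.F_sub h).trans ?_
    gcongr
    have := hq h
    rwa [div_le_iff₀' hε] at this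

theorem not_diff {z₀ : ℂ} (hz : z₀ ∈ P.K) : ¬ DifferentiableAt ℝ P.F z₀ := by
  intro hd
  have h1 := hd.hasFDerivAt.isLittleO.def one_pos
  set A := fderiv ℝ P.F z₀
  have h2 := P.S_large hz (‖A‖ + 3)
  rw [nhds_prod_eq] at h2
  obtain ⟨s, hs1, hs2⟩ := Filter.eventually_prod_self_iff'.1 h2
  have h3 : ∀ᶠ z in 𝓝[≠] z₀, (z ∈ s ∧ ‖P.F z - P.F z₀ - A (z - z₀)‖ ≤ 1 * ‖z - z₀‖) ∧ z ≠ z₀ :=
    (((show ∀ᶠ z in 𝓝 z₀, z ∈ s from hs1).and h1).filter_mono nhdsWithin_le_nhds).and
      self_mem_nhdsWithin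
  obtain ⟨z, ⟨hz1, hz2⟩, hz3⟩ := h3.exists
  have h4 := hs2 z hz1 z₀ (mem_of_mem_nhds hs1) hz3
  simp only at h4
  have h5 := P.F_lower hz3
  have h6 : ‖P.F z - P.F z₀‖ ≤ (‖A‖ + 1) * ‖z - z₀‖ := by
    calc ‖P.F z - P.F z₀‖ = ‖(P.F z - P.F z₀ - A (z - z₀)) + A (z - z₀)‖ := by congr 1; abel
      _ ≤ 1 * ‖z - z₀‖ + ‖A‖ * ‖z - z₀‖ := (norm_add_le _ _).trans
          (add_le_add hz2 (A.le_opNorm _))
      _ = _ := by ring
  have h7 : 0 < ‖z - z₀‖ := norm_pos_iff.2 (sub_ne_zero.2 hz3)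
  nlinarith

/-- strict differentiability off `K` -/
theorem strict {z₀ : ℂ} (hz : z₀ ∉ P.K) : ∃ B : ℂ →L[ℝ] ℂ, HasStrictFDerivAt P.F B z₀ := by
  -- a ball
  obtain ⟨d, hd, hball⟩ : ∃ d > 0, ∀ z ∈ Metric.ball z₀ d, ∀ i, d ≤ ‖z - P.w i‖ := by
    obtain ⟨r, hr, hr2⟩ := Metric.isOpen_iff.1 P.comp.isClosed.isOpen_compl z₀ hz
    refine ⟨r / 2, by positivity, fun z hz i => ?_⟩
    by_contra hcon
    push Not at hcon
    refine hr2 ?_ (P.mem i)
    rw [Metric.mem_ball, dist_comm]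
    calc dist z₀ (P.w i) ≤ dist z₀ z + dist z (P.w i) := dist_triangle _ _ _
      _ < r / 2 + r / 2 := by
        gcongr
        · rw [dist_comm]; exact hz
        · rw [dist_eq_norm]; exact hcon
      _ = r := by ring
  have hne : ∀ z ∈ Metric.ball z₀ d, ∀ i, z - P.w i ≠ 0 := fun z hz i h => by
    have := hball z hz i
    rw [h, norm_zero] at this
    linarith
  have hder : ∀ i, ∀ z ∈ Metric.ball z₀ d,
      HasFDerivAt (fun z => P.a i • phi (z - P.w i)) (P.a i • fderiv ℝ phi (z - P.w i)) z := by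
    intro i z hz
    have h1 : HasFDerivAt phi (fderiv ℝ phi (z - P.w i)) (z - P.w i) :=
      ((contDiffAt_phi (hne z hz i)).differentiableAt (by simp)).hasFDerivAt
    have h2 : HasFDerivAt (fun z => phi (z - P.w i)) (fderiv ℝ phi (z - P.w i)) z := by
      have h3 : HasFDerivAt (fun z => z - P.w i) (ContinuousLinearMap.id ℝ ℂ) z :=
        (hasFDerivAt_id z).sub_const (P.w i)
      exact h1.comp z h3
    exact h2.const_smul (P.a i)
  have hu : Summable fun i => P.a i * (Lg d + 2) := P.sum.mul_right _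
  have hbd : ∀ i, ∀ z ∈ Metric.ball z₀ d,
      ‖P.a i • fderiv ℝ phi (z - P.w i)‖ ≤ P.a i * (Lg d + 2) := by
    intro i z hz
    rw [norm_smul, Real.norm_eq_abs, abs_of_nonneg (P.nn i)]
    exact mul_le_mul_of_nonneg_left (fderiv_phi_le hd (hball z hz i)) (P.nn i)
  have hz₀ : z₀ ∈ Metric.ball z₀ d := Metric.mem_ball_self hd
  have h1 : ∀ z ∈ Metric.ball z₀ d, HasFDerivAt P.G (∑' i, P.a i • fderiv ℝ phi (z - P.w i)) z :=
    fun z hz => hasFDerivAt_tsum_of_isPreconnected hu Metric.isOpen_ball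
      (convex_ball z₀ d).isPreconnected hder hbd hz₀ (P.summable_term z₀) hz
  have h2 : ContinuousOn (fun z => ∑' i, P.a i • fderiv ℝ phi (z - P.w i))
      (Metric.ball z₀ d) := by
    apply continuousOn_tsum (u := fun i => P.a i * (Lg d + 2)) _ hu hbd
    intro i
    apply ContinuousOn.fun_const_smul
    intro z hz
    apply ContinuousAt.continuousWithinAt
    have h3 : ContinuousAt (fderiv ℝ phi) (z - P.w i) := by
      have := (contDiffAt_phi (hne z hz i)).continuousAt_fderiv (by simp)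
      exact this
    exact ContinuousAt.comp (f := fun z => z - P.w i) h3 (by fun_prop)
  have h3 : HasStrictFDerivAt P.G (∑' i, P.a i • fderiv ℝ phi (z₀ - P.w i)) z₀ := by
    apply hasStrictFDerivAt_of_hasFDerivAt_of_continuousAt (f' := fun z =>
      ∑' i, P.a i • fderiv ℝ phi (z - P.w i))
    · filter_upwards [Metric.isOpen_ball.mem_nhds hz₀] with z hz
      exact h1 z hz
    · exact h2.continuousAt (Metric.isOpen_ball.mem_nhds hz₀)
  exact ⟨_, (hasStrictFDerivAt_id z₀).add h3⟩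

theorem strict_equiv {z₀ : ℂ} (hz : z₀ ∉ P.K) :
    ∃ L : ℂ ≃L[ℝ] ℂ, HasStrictFDerivAt P.F (L : ℂ →L[ℝ] ℂ) z₀ := by
  obtain ⟨B, hB⟩ := P.strict hz
  have h1 : ∀ v, 1 / 4 * ‖v‖ ≤ ‖B v‖ := by
    have h2 := hB.hasFDerivAt.isLittleO.def (show (0 : ℝ) < 1 / 4 by norm_num)
    obtain ⟨r, hr, h3⟩ := Metric.eventually_nhds_iff.1 h2
    intro v
    rcases eq_or_ne v 0 with hv | hv
    · simp [hv]
    have hvn : 0 < ‖v‖ := norm_pos_iff.2 hv
    set t := r / (2 * ‖v‖) with ht
    have ht0 : 0 < t := by positivity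
    have h4 := h3 (y := z₀ + t • v) (by
      rw [dist_eq_norm, add_sub_cancel_left, norm_smul, Real.norm_eq_abs, abs_of_pos ht0, ht]
      have : r / (2 * ‖v‖) * ‖v‖ = r / 2 := by field_simp
      rw [this]; linarith)
    rw [add_sub_cancel_left] at h4
    have h5 := P.F_lower' (z₀ + t • v) z₀
    rw [add_sub_cancel_left] at h5
    have h6 : ‖P.F (z₀ + t • v) - P.F z₀‖ ≤ ‖B (t • v)‖ + 1 / 4 * ‖t • v‖ := by
      calc _ = ‖B (t • v) + (P.F (z₀ + t • v) - P.F z₀ - B (t • v))‖ := by congr 1; abel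
        _ ≤ _ := (norm_add_le _ _).trans (by gcongr)
    rw [map_smul, norm_smul, norm_smul, Real.norm_eq_abs, abs_of_pos ht0] at h6
    rw [norm_smul, Real.norm_eq_abs, abs_of_pos ht0] at h5
    have h7 : t * (1 / 4 * ‖v‖) ≤ t * ‖B v‖ := by nlinarith
    exact le_of_mul_le_mul_left h7 ht0
  have hinj : Function.Injective B := by
    intro x y hxy
    have := h1 (x - y)
    rw [map_sub, hxy, sub_self, norm_zero] at this
    have h2 : ‖x - y‖ ≤ 0 := by linarith
    exact sub_eq_zero.1 (norm_le_zero_iff.1 h2)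
  have hsurj : Function.Surjective B := (LinearMap.injective_iff_surjective (f := (B : ℂ →ₗ[ℝ] ℂ))).1 hinj
  refine ⟨ContinuousLinearEquiv.ofBijective B (LinearMap.ker_eq_bot.2 hinj)
    (LinearMap.range_eq_top.2 hsurj), ?_⟩
  rwa [ContinuousLinearEquiv.coe_ofBijective]

theorem spd_notMem {z₀ : ℂ} (hz : z₀ ∉ P.K) : SPD P.F z₀ := by
  obtain ⟨L, hL⟩ := P.strict_equiv hz
  refine ⟨L, fun ε hε => ?_⟩
  filter_upwards [hL.isLittleO.def hε] with q hq
  refine ⟨1, one_pos, ?_⟩
  rw [one_smul, mul_one]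
  exact hq

theorem spd (z₀ : ℂ) : SPD P.F z₀ := by
  by_cases h : z₀ ∈ P.K
  · exact P.spd_mem h
  · exact P.spd_notMem h

theorem F_real {z : ℂ} (hz : z.im = 0) : (P.F z).im = 0 := by
  unfold F G
  rw [Complex.add_im, hz, zero_add]
  have h1 := (Complex.hasSum_im (P.summable_term z).hasSum).tsum_eq
  rw [← h1]
  have h2 : ∀ i, (P.a i • phi (z - P.w i)).im = 0 := by
    intro i
    unfold phi
    rw [Complex.smul_im, Complex.smul_im, Complex.sub_im, hz, P.real _ (P.mem i)]
    simp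
  rw [tsum_congr h2, tsum_zero]

theorem preconnected_compl {C : Set ℂ} (hC : IsCompact C) (hCr : ∀ z ∈ C, z.im = 0) :
    IsPreconnected Cᶜ := by
  -- a real point off `C`
  obtain ⟨x₀, hx₀⟩ : ∃ x : ℝ, (x : ℂ) ∉ C := by
    by_contra hcon
    push Not at hcon
    obtain ⟨R, hR⟩ := hC.isBounded.subset_closedBall 0
    have := hR (hcon (|R| + 1))
    rw [mem_closedBall_zero_iff, Complex.norm_real, Real.norm_eq_abs] at this
    have h2 := le_abs_self R
    have h3 := le_abs_self (|R| + 1)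
    linarith
  have h1 : ∀ σ : ℝ, IsPreconnected (insert (x₀ : ℂ) {z : ℂ | 0 < σ * z.im}) := by
    intro σ
    apply Convex.isPreconnected
    intro z hz w hw s t hs ht hst
    by_cases h : 0 < σ * (s • z + t • w).im
    · exact Or.inr h
    · left
      rw [Complex.add_im, Complex.smul_im, Complex.smul_im] at h
      simp only [smul_eq_mul] at h
      have key : σ * (s * z.im + t * w.im) = s * (σ * z.im) + t * (σ * w.im) := by ring
      rw [key] at h
      rcases hz with rfl | hz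
      · rcases hw with rfl | hw
        · rw [← add_smul, hst, one_smul]
        · have hw' : 0 < σ * w.im := hw
          rw [Complex.ofReal_im, mul_zero, mul_zero, zero_add] at h
          have ht0 : t = 0 := by
            by_contra hne
            exact h (mul_pos (lt_of_le_of_ne ht (Ne.symm hne)) hw')
          have hs1 : s = 1 := by linarith
          rw [ht0, hs1]; simp
      · have hz' : 0 < σ * z.im := hz
        rcases hw with rfl | hw
        · rw [Complex.ofReal_im, mul_zero, mul_zero, add_zero] at h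
          have hs0 : s = 0 := by
            by_contra hne
            exact h (mul_pos (lt_of_le_of_ne hs (Ne.symm hne)) hz')
          have ht1 : t = 1 := by linarith
          rw [hs0, ht1]; simp
        · have hw' : 0 < σ * w.im := hw
          exfalso
          apply h
          rcases hs.eq_or_lt with hs0 | hs0
          · have : t = 1 := by linarith
            rw [← hs0, this]; linarith
          · have h2 : 0 ≤ t * (σ * w.im) := by positivity
            have h3 : 0 < s * (σ * z.im) := by positivity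
            linarith
  have h2 := (h1 1).union (x₀ : ℂ) (mem_insert _ _) (mem_insert _ _) (h1 (-1))
  refine h2.subset_closure ?_ ?_
  · rintro z (hz | hz) hzC <;> rcases hz with rfl | hz
    · exact hx₀ hzC
    · have hz' : 0 < 1 * z.im := hz
      rw [hCr z hzC] at hz'; simp at hz'
    · exact hx₀ hzC
    · have hz' : 0 < -1 * z.im := hz
      rw [hCr z hzC] at hz'; simp at hz'
  · intro z _
    rw [mem_closure_iff_nhds]
    intro U hU
    have h3 : Tendsto (fun t : ℝ => z + (t : ℂ) * Complex.I) (𝓝 0) (𝓝 z) := by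
      have h7 : Continuous fun t : ℝ => z + (t : ℂ) * Complex.I := by fun_prop
      have h8 := h7.tendsto 0
      simpa using h8
    have h4 : ∀ᶠ t : ℝ in 𝓝[≠] (0 : ℝ), z + (t : ℂ) * Complex.I ∈ U :=
      (show ∀ᶠ t : ℝ in 𝓝 (0 : ℝ), z + (t : ℂ) * Complex.I ∈ U from h3 hU).filter_mono
        nhdsWithin_le_nhds
    have h5 : ∀ᶠ t : ℝ in 𝓝[≠] (0 : ℝ), z.im + t ≠ 0 := by
      have h6 : ∀ᶠ t in 𝓝[≠] (0 : ℝ), t ≠ - z.im := by
        by_cases hz : z.im = 0
        · rw [hz, neg_zero]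
          exact self_mem_nhdsWithin
        · have h9 : (0 : ℝ) ≠ - z.im := fun h => hz (by linarith)
          have h10 : ∀ᶠ t in 𝓝 (0 : ℝ), t ≠ - z.im := isOpen_ne.mem_nhds h9
          exact h10.filter_mono nhdsWithin_le_nhds
      filter_upwards [h6] with t ht h7
      apply ht
      linarith
    obtain ⟨t, ht1, ht2⟩ := (h4.and h5).exists
    refine ⟨_, ht1, ?_⟩
    have him : (z + (t : ℂ) * Complex.I).im = z.im + t := by simp
    rcases lt_or_gt_of_ne ht2 with h | h
    · right; right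
      show 0 < -1 * (z + (t : ℂ) * Complex.I).im
      rw [him]
      linarith
    · left; right
      show 0 < 1 * (z + (t : ℂ) * Complex.I).im
      rw [him]
      linarith

theorem F_surj : Function.Surjective P.F := by
  by_contra hns
  rw [Function.Surjective] at hns
  push Not at hns
  obtain ⟨y₀, hy₀⟩ := hns
  -- the range is closed
  have hanti : AntilipschitzWith 2 P.F := by
    apply AntilipschitzWith.of_le_mul_dist
    intro z w
    rw [dist_eq_norm, dist_eq_norm]
    have := P.F_lower' z w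
    simp only [NNReal.coe_ofNat]
    linarith
  have hprop : IsProperMap P.F := by
    rw [isProperMap_iff_tendsto_cocompact]
    refine ⟨P.continuous_F, ?_⟩
    have := hanti.tendsto_cobounded
    rwa [Metric.cobounded_eq_cocompact] at this
  have hcl : IsClosed (range P.F) := hprop.isClosedMap.isClosed_range
  -- the image of the complement of `K` is open
  have hop : IsOpen (P.F '' P.Kᶜ) := by
    rw [isOpen_iff_mem_nhds]
    rintro _ ⟨z, hz, rfl⟩
    obtain ⟨L, hL⟩ := P.strict_equiv hz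
    rw [← hL.map_nhds_eq_of_equiv, Filter.mem_map]
    filter_upwards [P.comp.isClosed.isOpen_compl.mem_nhds hz] with w hw
    exact ⟨w, hw, rfl⟩
  have hFK : IsCompact (P.F '' P.K) := P.comp.image P.continuous_F
  have hpre := preconnected_compl hFK (by
    rintro _ ⟨z, hz, rfl⟩
    exact P.F_real (P.real z hz))
  have := hpre (range P.F)ᶜ (P.F '' P.Kᶜ) hcl.isOpen_compl hop (by
    intro y hy
    by_cases h : y ∈ range P.F
    · right
      obtain ⟨z, rfl⟩ := h
      exact ⟨z, fun hz => hy ⟨z, hz, rfl⟩, rfl⟩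
    · exact Or.inl h) ⟨y₀, by
      rintro ⟨z, hz, hzy⟩
      exact hy₀ z hzy, by
      rintro ⟨z, hzy⟩
      exact hy₀ z hzy⟩ ⟨P.F Complex.I, by
      rintro ⟨z, hz, hzy⟩
      have := P.F_inj hzy
      rw [this] at hz
      have := P.real _ hz
      simp at this, ⟨Complex.I, fun h => by
        have := P.real _ h
        simp at this, rfl⟩⟩
  obtain ⟨y, hy, hy1, z, hz, hzy⟩ := this
  exact hy1 ⟨z, hzy⟩

/-- the homeomorphism -/
noncomputable def homeo : ℂ ≃ₜ ℂ :=
  (Equiv.ofBijective P.F ⟨P.F_inj, P.F_surj⟩).toHomeomorphOfContinuousClosed P.continuous_F (by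
    have hanti : AntilipschitzWith 2 P.F := by
      apply AntilipschitzWith.of_le_mul_dist
      intro z w
      rw [dist_eq_norm, dist_eq_norm]
      have := P.F_lower' z w
      simp only [NNReal.coe_ofNat]
      linarith
    have hprop : IsProperMap P.F := by
      rw [isProperMap_iff_tendsto_cocompact]
      refine ⟨P.continuous_F, ?_⟩
      have := hanti.tendsto_cobounded
      rwa [Metric.cobounded_eq_cocompact] at this
    exact hprop.isClosedMap)

theorem homeo_apply (z : ℂ) : P.homeo z = P.F z := rfl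

theorem homeo_inHomeo1 : InHomeo1 P.homeo := inHomeo1_of_spd fun p => P.spd p

end Dat

end Pool.Agent.Q192.BD
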