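import Mathlib
import Pool.Agent.Q192.BD.Map

namespace Pool.Agent.Q192.BD

open Topology Filter Set

/-- super-exponentially decreasing radii -/
noncomputable def rr (n : ℕ) : ℝ := (1 / 4 : ℝ) ^ (16 ^ n)

theorem rr_pos (n : ℕ) : 0 < rr n := by unfold rr; positivity

theorem rr_succ (n : ℕ) : rr (n + 1) ≤ rr n * (1 / 4) := by
  unfold rr
  rw [← pow_succ]
  apply pow_le_pow_of_le_one (by norm_num) (by norm_num)
  have : 1 ≤ 16 ^ n := Nat.one_le_pow _ _ (by norm_num)
  rw [pow_succ]
  omega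

theorem rr_add (n k : ℕ) : rr (n + k) ≤ rr n * (1 / 4) ^ k := by
  induction k with
  | zero => simp
  | succ k ih =>
    calc rr (n + (k + 1)) ≤ rr (n + k) * (1 / 4) := rr_succ (n + k)
      _ ≤ rr n * (1 / 4) ^ k * (1 / 4) := by gcongr
      _ = _ := by ring

/-- the `i`-th digit term -/
noncomputable def dg (e : ℕ → Bool) (i : ℕ) : ℝ := if e i then rr i else 0

theorem dg_nonneg (e : ℕ → Bool) (i : ℕ) : 0 ≤ dg e i := by
  unfold dg; split_ifs
  · exact (rr_pos i).le
  · exact le_rfl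

theorem dg_le (e : ℕ → Bool) (i : ℕ) : dg e i ≤ rr i := by
  unfold dg; split_ifs
  · exact le_rfl
  · exact (rr_pos i).le

theorem geo (n : ℕ) : Summable fun k : ℕ => rr n * (1 / 4 : ℝ) ^ k :=
  (summable_geometric_of_lt_one (by norm_num) (by norm_num)).mul_left _

theorem dg_summable (e : ℕ → Bool) : Summable (dg e) := by
  refine Summable.of_nonneg_of_le (dg_nonneg e) (fun i => ?_) (geo 0)
  have := rr_add 0 i
  rw [zero_add] at this
  exact (dg_le e i).trans this

/-- the point of the Cantor set with digits `e` -/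
noncomputable def cc (e : ℕ → Bool) : ℝ := ∑' i, dg e i

theorem cc_split (e : ℕ → Bool) (n : ℕ) :
    cc e = (∑ i ∈ Finset.range n, dg e i) + ∑' k, dg e (k + n) :=
  ((dg_summable e).sum_add_tsum_nat_add n).symm

theorem tail_nonneg (e : ℕ → Bool) (n : ℕ) : 0 ≤ ∑' k, dg e (k + n) :=
  tsum_nonneg fun k => dg_nonneg e _

theorem tail_le (e : ℕ → Bool) (n : ℕ) : ∑' k, dg e (k + n) ≤ rr n * (4 / 3) := by
  calc ∑' k, dg e (k + n) ≤ ∑' k : ℕ, rr n * (1 / 4 : ℝ) ^ k := by
        apply Summable.tsum_le_tsum _ ((summable_nat_add_iff n).2 (dg_summable e)) (geo n)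
        intro k
        refine (dg_le e _).trans ?_
        rw [add_comm]
        exact rr_add n k
    _ = rr n * (4 / 3) := by
        rw [tsum_mul_left, tsum_geometric_of_lt_one (by norm_num) (by norm_num)]
        norm_num

theorem cc_injective : Function.Injective cc := by
  have main : ∀ e e' : ℕ → Bool, ∀ n, (∀ i < n, e i = e' i) → e n = true → e' n = false →
      cc e' < cc e := by
    intro e e' n h1 h2 h3
    rw [cc_split e (n + 1), cc_split e' (n + 1), Finset.sum_range_succ, Finset.sum_range_succ]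
    have h4 : ∑ i ∈ Finset.range n, dg e i = ∑ i ∈ Finset.range n, dg e' i := by
      apply Finset.sum_congr rfl
      intro i hi
      unfold dg
      rw [h1 i (Finset.mem_range.1 hi)]
    have h5 : dg e n = rr n := by unfold dg; rw [h2]; simp
    have h6 : dg e' n = 0 := by unfold dg; rw [h3]; simp
    have h7 := tail_le e' (n + 1)
    have h8 := tail_nonneg e (n + 1)
    have h9 := rr_succ n
    have h10 := rr_pos n
    rw [h4, h5, h6]
    linarith
  intro e e' h
  by_contra hne
  have hex : ∃ n, e n ≠ e' n := by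
    by_contra hcon
    push Not at hcon
    exact hne (funext hcon)
  classical
  set n := Nat.find hex with hn
  have h1 : e n ≠ e' n := Nat.find_spec hex
  have h2 : ∀ i < n, e i = e' i := fun i hi => not_not.1 (Nat.find_min hex hi)
  rcases Bool.eq_false_or_eq_true (e n) with h3 | h3
  · have h4 : e' n = false := by
      rcases Bool.eq_false_or_eq_true (e' n) with h4 | h4
      · exact absurd (h3.trans h4.symm) h1
      · exact h4
    exact absurd h (main e e' n h2 h3 h4).ne'
  · have h4 : e' n = true := by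
      rcases Bool.eq_false_or_eq_true (e' n) with h4 | h4
      · exact h4
      · exact absurd (h3.trans h4.symm) h1
    exact absurd h (main e' e n (fun i hi => (h2 i hi).symm) h4 h3).ne

theorem continuous_cc : Continuous cc := by
  apply continuous_tsum (u := rr)
  · intro i
    exact (continuous_of_discreteTopology (f := fun b : Bool => if b then rr i else 0)).comp
      (continuous_apply i)
  · refine Summable.of_nonneg_of_le (fun i => (rr_pos i).le) (fun i => ?_) (geo 0)
    have := rr_add 0 i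
    rwa [zero_add] at this
  · intro i e
    rw [Real.norm_eq_abs, abs_of_nonneg (dg_nonneg e i)]
    exact dg_le e i

/-- extension of a finite word by zeros -/
def ext {n : ℕ} (b : Fin n → Bool) (i : ℕ) : Bool := if h : i < n then b ⟨i, h⟩ else false

theorem cc_ext (e : ℕ → Bool) (n : ℕ) :
    cc (ext fun j : Fin n => e j) = ∑ i ∈ Finset.range n, dg e i := by
  rw [cc_split _ n]
  have h1 : ∑' k, dg (ext fun j : Fin n => e j) (k + n) = 0 := by
    have : ∀ k, dg (ext fun j : Fin n => e j) (k + n) = 0 := by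
      intro k
      unfold dg ext
      simp
    rw [tsum_congr this, tsum_zero]
  rw [h1, add_zero]
  apply Finset.sum_congr rfl
  intro i hi
  unfold dg ext
  simp [Finset.mem_range.1 hi]

/-- the weights -/
noncomputable def aa (p : Σ n : ℕ, (Fin n → Bool)) : ℝ := (1 / 8 : ℝ) ^ (p.1 + 1)

theorem aa_fibre (n : ℕ) : ∑' b : Fin n → Bool, aa ⟨n, b⟩ = 1 / 8 * (1 / 4 : ℝ) ^ n := by
  have h : ∀ b : Fin n → Bool, aa ⟨n, b⟩ = (1 / 8 : ℝ) ^ (n + 1) := fun b => rfl
  rw [tsum_fintype, Finset.sum_congr rfl fun b _ => h b, Finset.sum_const, Finset.card_univ,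
    Fintype.card_fun, Fintype.card_bool, Fintype.card_fin, nsmul_eq_mul, pow_succ]
  push_cast
  rw [← mul_assoc, ← mul_pow]
  norm_num
  ring

theorem aa_summable : Summable aa := by
  rw [summable_sigma_of_nonneg (fun p => by unfold aa; positivity)]
  refine ⟨fun n => Summable.of_finite, ?_⟩
  have : (fun n => ∑' b : Fin n → Bool, aa ⟨n, b⟩) = fun n => 1 / 8 * (1 / 4 : ℝ) ^ n :=
    funext aa_fibre
  rw [this]
  exact (summable_geometric_of_lt_one (by norm_num) (by norm_num)).mul_left _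

theorem aa_tsum : ∑' p, aa p ≤ 1 / 4 := by
  rw [aa_summable.tsum_sigma, tsum_congr aa_fibre, tsum_mul_left,
    tsum_geometric_of_lt_one (by norm_num) (by norm_num)]
  norm_num

theorem log16 : (2 : ℝ) ≤ Real.log 16 := by
  have h1 := Real.log_two_gt_d9
  have : (16 : ℝ) = 2 ^ 4 := by norm_num
  rw [this, Real.log_pow]
  push_cast
  linarith

/-- lower bound for the profile at scale `3 r_n` -/
theorem Lg_rr (n : ℕ) (hn : 1 ≤ n) : (16 : ℝ) ^ n ≤ Lg (3 * rr n) := by
  unfold Lg rr
  obtain ⟨N, hN⟩ : ∃ N : ℕ, 16 ^ n = N + 2 := by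
    have : 16 ^ 1 ≤ 16 ^ n := Nat.pow_le_pow_right (by norm_num) hn
    exact ⟨16 ^ n - 2, by omega⟩
  have hN' : (16 : ℝ) ^ n = N + 2 := by exact_mod_cast hN
  rw [hN, hN']
  have h1 : (16 : ℝ) ^ (N + 1) ≤ 1 + ((3 * (1 / 4 : ℝ) ^ (N + 2)) ^ 2)⁻¹ := by
    have h2 : ((3 * (1 / 4 : ℝ) ^ (N + 2)) ^ 2)⁻¹ = 16 ^ (N + 2) / 9 := by
      rw [mul_pow, ← pow_mul, mul_comm (N + 2) 2, pow_mul, mul_inv, ← inv_pow _ (N + 2)]
      rw [show ((1 / 4 : ℝ) ^ 2)⁻¹ = 16 by norm_num]
      norm_num
      ring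
    rw [h2, pow_succ 16 (N + 1)]
    have : (0 : ℝ) < 16 ^ (N + 1) := by positivity
    linarith
  calc (N : ℝ) + 2 ≤ ((N + 1 : ℕ) : ℝ) * 2 := by push_cast; linarith [(Nat.cast_nonneg N : (0:ℝ) ≤ N)]
    _ ≤ ((N + 1 : ℕ) : ℝ) * Real.log 16 := by gcongr; exact log16
    _ = Real.log (16 ^ (N + 1)) := by rw [Real.log_pow]
    _ ≤ _ := Real.log_le_log (by positivity) h1

/-- the data -/
noncomputable def cdat : Dat (Σ n : ℕ, (Fin n → Bool)) where
  a := aa
  w := fun p => (cc (ext p.2) : ℂ)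
  K := range fun e : ℕ → Bool => (cc e : ℂ)
  nn := fun p => by unfold aa; positivity
  sum := aa_summable
  le := aa_tsum
  comp := isCompact_range (Complex.continuous_ofReal.comp continuous_cc)
  real := by
    rintro _ ⟨e, rfl⟩
    exact Complex.ofReal_im _
  mem := fun p => ⟨_, rfl⟩
  big := by
    rintro _ ⟨e, rfl⟩ M
    obtain ⟨n, hn1, hn2⟩ : ∃ n : ℕ, 1 ≤ n ∧ 8 * M ≤ 2 ^ n := by
      obtain ⟨n, hn⟩ := pow_unbounded_of_one_lt (8 * M) (show (1 : ℝ) < 2 by norm_num)
      refine ⟨n + 1, by omega, hn.le.trans ?_⟩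
      apply pow_le_pow_right₀ (by norm_num)
      omega
    refine ⟨⟨n, fun j => e j⟩, ?_⟩
    have h1 : |cc e - cc (ext fun j : Fin n => e j)| ≤ rr n * (4 / 3) := by
      rw [cc_ext, cc_split e n, add_sub_cancel_left, abs_of_nonneg (tail_nonneg e n)]
      exact tail_le e n
    filter_upwards [Metric.ball_mem_nhds (cc e : ℂ) (rr_pos n)] with x hx hne
    set c : ℂ := ((cc (ext fun j : Fin n => e j) : ℝ) : ℂ)
    have h2 : ‖x - c‖ ≤ 3 * rr n := by
      have h3 : ‖((cc e : ℝ) : ℂ) - c‖ ≤ rr n * (4 / 3) := by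
        rw [← Complex.ofReal_sub, Complex.norm_real, Real.norm_eq_abs]
        exact h1
      rw [Metric.mem_ball, dist_eq_norm] at hx
      calc ‖x - c‖ = ‖(x - ((cc e : ℝ) : ℂ)) + (((cc e : ℝ) : ℂ) - c)‖ := by congr 1; ring
        _ ≤ rr n + rr n * (4 / 3) := (norm_add_le _ _).trans (add_le_add hx.le h3)
        _ ≤ 3 * rr n := by linarith [rr_pos n]
    have h4 : 0 < ‖x - c‖ := norm_pos_iff.2 (sub_ne_zero.2 hne)
    have h5 : (16 : ℝ) ^ n ≤ Lg ‖x - c‖ := (Lg_rr n hn1).trans (Lg_anti h4 h2)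
    unfold aa
    calc M ≤ (1 / 8 : ℝ) ^ (n + 1) * 16 ^ n := by
          rw [pow_succ, mul_right_comm, ← mul_pow]
          norm_num
          linarith
      _ ≤ _ := by gcongr

theorem cdat_uncountable : ¬ cdat.K.Countable := by
  intro h
  have hinj : Function.Injective fun e : ℕ → Bool => (cc e : ℂ) :=
    Complex.ofReal_injective.comp cc_injective
  have h1 : (univ : Set (ℕ → Bool)).Countable := by
    have h2 := h.preimage hinj
    refine h2.mono fun e _ => ?_
    exact mem_range_self e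
  have h3 : Countable (ℕ → Bool) := countable_univ_iff.1 h1
  obtain ⟨g, hg⟩ := exists_surjective_nat (ℕ → Bool)
  obtain ⟨n, hn⟩ := hg fun k => !(g k k)
  have h4 := congrFun hn n
  simp at h4

end Pool.Agent.Q192.BD
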